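import Mathlib

/-!
MP_ace2a1_co.  Two isomorphic chain-structured systems on six vertices, each with exactly two
2-edges and two 3-edges, that admit no cooperative colouring.
-/

set_option autoImplicit false

namespace Pool.Agent.Results.MP_ace2a1_co.SixVertices

open Finset

/-- `E` is the hyperedge set of a chain-structured system on the vertex set `Fin n`: for some
cyclic ordering `v` of the vertices, each hyperedge is a nonempty run
`{v i, v (i + 1), …, v (i + l - 1)}` of cyclically consecutive vertices. -/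
def IsChainStructured {n : ℕ} (E : Finset (Finset (Fin n))) : Prop :=
  ∃ v : ZMod n → Fin n, Function.Bijective v ∧ ∀ e ∈ E, ∃ (i : ZMod n) (l : ℕ),
    1 ≤ l ∧ l ≤ n ∧ e = (range l).image (fun t : ℕ => v (i + (t : ZMod n)))

/-- Isomorphism: a bijection of the vertices maps the hyperedge set `E₁` onto `E₂`. -/
def Isomorphic {n : ℕ} (E₁ E₂ : Finset (Finset (Fin n))) : Prop :=
  ∃ φ : Fin n → Fin n, Function.Bijective φ ∧ E₂ = E₁.image (fun e => e.image φ)

/-- Exactly two 2-edges, and every other hyperedge has at least three vertices. -/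
def TwoTwoEdges {n : ℕ} (E : Finset (Finset (Fin n))) : Prop :=
  (E.filter (fun e => e.card = 2)).card = 2 ∧ ∀ e ∈ E, e.card ≠ 2 → 3 ≤ e.card

/-- `I` is independent: it contains no hyperedge. -/
def Independent {n : ℕ} (E : Finset (Finset (Fin n))) (I : Finset (Fin n)) : Prop :=
  ∀ e ∈ E, ¬ e ⊆ I

/-- A cooperative colouring of the two hypergraphs with hyperedge sets `E₁` and `E₂`. -/
def HasCoopColouring {n : ℕ} (E₁ E₂ : Finset (Finset (Fin n))) : Prop :=
  ∃ I₁ I₂ : Finset (Fin n), Independent E₁ I₁ ∧ Independent E₂ I₂ ∧ I₁ ∪ I₂ = univ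

/-- the first system -/
def F₁ : Finset (Finset (Fin 6)) := {{0, 1}, {3, 4}, {1, 2, 3}, {0, 4, 5}}

/-- the second system -/
def F₂ : Finset (Finset (Fin 6)) := {{0, 3}, {1, 4}, {1, 3, 5}, {0, 2, 4}}

lemma chain₁ : IsChainStructured F₁ := by
  refine ⟨fun i => i, Function.bijective_id, ?_⟩
  intro e he
  simp only [F₁, mem_insert, mem_singleton] at he
  rcases he with rfl | rfl | rfl | rfl
  · exact ⟨(0 : Fin 6), 2, by decide, by decide, by decide⟩
  · exact ⟨(3 : Fin 6), 2, by decide, by decide, by decide⟩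
  · exact ⟨(1 : Fin 6), 3, by decide, by decide, by decide⟩
  · exact ⟨(4 : Fin 6), 3, by decide, by decide, by decide⟩

/-- the cyclic ordering of the second system -/
def ord : Fin 6 → Fin 6 := ![0, 3, 5, 1, 4, 2]

lemma ord_bij : Function.Bijective ord := by
  rw [Fintype.bijective_iff_injective_and_card]
  exact ⟨by decide, rfl⟩

lemma chain₂ : IsChainStructured F₂ := by
  refine ⟨ord, ord_bij, ?_⟩
  intro e he
  simp only [F₂, mem_insert, mem_singleton] at he
  rcases he with rfl | rfl | rfl | rfl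
  · exact ⟨(0 : Fin 6), 2, by decide, by decide, by decide⟩
  · exact ⟨(3 : Fin 6), 2, by decide, by decide, by decide⟩
  · exact ⟨(1 : Fin 6), 3, by decide, by decide, by decide⟩
  · exact ⟨(4 : Fin 6), 3, by decide, by decide, by decide⟩

lemma isom : Isomorphic F₁ F₂ := ⟨ord, ord_bij, by decide⟩

lemma no_coop : ¬ HasCoopColouring F₁ F₂ := by
  rintro ⟨I₁, I₂, h1, h2, h3⟩
  have key : ∀ I : Finset (Fin 6), (∃ e ∈ F₁, e ⊆ I) ∨ ∃ e ∈ F₂, e ⊆ univ \ I := by
    decide +kernel
  rcases key I₁ with ⟨e, he, hs⟩ | ⟨e, he, hs⟩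
  · exact h1 e he hs
  · refine h2 e he (hs.trans ?_)
    intro x hx
    rw [mem_sdiff] at hx
    have hx2 : x ∈ I₁ ∪ I₂ := by rw [h3]; exact mem_univ x
    rw [mem_union] at hx2
    exact hx2.resolve_left hx.2

/-- Q1 has a negative answer. -/
theorem result : ∃ E₁ E₂ : Finset (Finset (Fin 6)),
    IsChainStructured E₁ ∧ IsChainStructured E₂ ∧ Isomorphic E₁ E₂ ∧
    TwoTwoEdges E₁ ∧ TwoTwoEdges E₂ ∧ ¬ HasCoopColouring E₁ E₂ :=
  ⟨F₁, F₂, chain₁, chain₂, isom, by unfold TwoTwoEdges; decide, by unfold TwoTwoEdges; decide,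
    no_coop⟩

end Pool.Agent.Results.MP_ace2a1_co.SixVertices
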